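import Pool.Agent.R349.Short2
import Pool.Agent.R349.Polylog

/-!
# Equality of polylogarithmic periods at algebraic numbers: a bounded number of exceptions in small discs

For an algebraic number `x` in the slit unit disc the numbers `f_0(x) = log x`, `f_k(x) = Li_k(x)` are periods. Let
`x_1, …, x_n` be elements of a number field `F`. We consider the periods which are presented by polynomials in the numbers
`f_k(x_j)`, `k ≤ w`, of degree at most `d` in each of them, whose coefficients are integers of `F` with conjugates at most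
`T ^ A`; and also such polynomials in these numbers and `π`, and combinations `∑ ξ_i P_i` with arbitrary complex numbers
`ξ_1, …, ξ_g`, for instance given periods.

The theorem: in a compact part of the slit disc, in discs of radius `T ^ (-δ)`, for any `δ > 0`, all but at most `C` points
`x` of height at most `T` of `F` (respectively all but `C ∑_j ∏_(i ≠ j) |X_i|` of the tuples of `X_1 × … × X_n`, for sets `X_j` of
diameter at most `T ^ (-δ)`) have the following property (`Correct`).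

* (formal test) The values of two presentations `P`, `Q` are equal if and only if `P = Q`.
* (numerical test) They are equal if and only if any approximations of them with the precision `T ^ (-B)` differ by at most
  `2 T ^ (-B)`: so the equality is decided by the comparison of `B log T` digits.
* The formal test is also correct for polynomials in the `f_k(x_j)` and `π`.
* (constants) The values of `∑ ξ_i P_i` and `∑ ξ_i Q_i` are equal if and only if all coefficients of the two expressions, as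
  polynomials in the `f_k(x_j)`, are equal, and each difference of the coefficients is at most `T ^ B` times the difference of the
  values. So the equality of the periods in this ring is reduced to the equality of combinations of the constants `ξ`.

`B` and `C` depend only on `w`, `n`, `m`, `g`, `d`, `A`, `δ` and on the compact set, and not on `T`, on the field `F` of degree
at most `m` and on the constants. The starting result `ComparingDigits` is about almost all tuples of algebraic integers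
`1 / x_j`; the proof uses the determinant method for small discs of the team library (`Pool.Agent.R349.Gen.shortG`).
-/

set_option autoImplicit false

open NumberField

namespace Pool.Agent.Results.MP_bbe012_lc.AlgebraicPointsInDiscs

section defs
variable {σ : Type} {F : Type} [Field F] [NumberField F]

/-- the polynomials of degree at most `d` in each variable, with integers of `F` as coefficients, all of whose conjugates
have absolute value at most `H` -/
def Expr (d : ℕ) (H : ℝ) (P : MvPolynomial σ (𝓞 F)) : Prop :=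
  (∀ y, P.degreeOf y ≤ d) ∧ ∀ s (φ : F →+* ℂ), ‖φ ((P.coeff s : 𝓞 F) : F)‖ ≤ H

/-- the value of the polynomial `P` at `v` -/
noncomputable def val (ι : F →+* ℂ) (v : σ → ℂ) (P : MvPolynomial σ (𝓞 F)) : ℂ :=
  MvPolynomial.eval₂ (ι.comp (algebraMap (𝓞 F) F)) v P

/-- The tests for the presentations of degree at most `d` and height at most `H` with the precision `1 / E` are correct. -/
def Correct {g : ℕ} (ι : F →+* ℂ) (ξ : Fin g → ℂ) (d : ℕ) (H E : ℝ) (v : σ → ℂ) : Prop :=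
  (∀ P Q : MvPolynomial σ (𝓞 F), Expr d H P → Expr d H Q →
    (val ι v P = val ι v Q ↔ P = Q) ∧
    ∀ u w : ℂ, E * ‖u - val ι v P‖ ≤ 1 → E * ‖w - val ι v Q‖ ≤ 1 → (val ι v P = val ι v Q ↔ E * ‖u - w‖ ≤ 2)) ∧
  (∀ P Q : MvPolynomial (Option σ) (𝓞 F), Expr d H P → Expr d H Q →
    (val ι (fun o => o.elim (Real.pi : ℂ) v) P = val ι (fun o => o.elim (Real.pi : ℂ) v) Q ↔ P = Q)) ∧
  ∀ P Q : Fin g → MvPolynomial σ (𝓞 F), (∀ i, Expr d H (P i)) → (∀ i, Expr d H (Q i)) →
    (∑ i, ξ i * val ι v (P i) = ∑ i, ξ i * val ι v (Q i) ↔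
      ∀ s, ∑ i, ξ i * ι (((P i).coeff s : 𝓞 F) : F) = ∑ i, ξ i * ι (((Q i).coeff s : 𝓞 F) : F)) ∧
    ∀ s, ‖∑ i, ξ i * ι (((P i).coeff s : 𝓞 F) : F) - ∑ i, ξ i * ι (((Q i).coeff s : 𝓞 F) : F)‖ ≤
      E * ‖∑ i, ξ i * val ι v (P i) - ∑ i, ξ i * val ι v (Q i)‖

end defs

/-- The element `x` of `F` is a quotient of integers all of whose conjugates have absolute value at most `T`. -/
def HeightLe (F : Type) [Field F] [NumberField F] (T : ℝ) (x : F) : Prop :=
  ∃ a b : 𝓞 F, b ≠ 0 ∧ (∀ φ : F →+* ℂ, ‖φ a‖ ≤ T ∧ ‖φ b‖ ≤ T) ∧ x = a / b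

/-- `f_0(z) = log z` and for `k ≥ 1` the polylogarithm `f_k(z) = Li_k(z) = ∑_(m ≥ 1) z^m / m^k`. -/
noncomputable def f (k : ℕ) (z : ℂ) : ℂ := if k = 0 then Complex.log z else ∑' m : ℕ, z ^ (m + 1) / ((m : ℂ) + 1) ^ k

/-! ### Proof -/

section proof
variable {σ : Type} {F : Type} [Field F] [NumberField F]

/-- the lower bound for algebraic integers -/
theorem liou {m : ℕ} (hm : Module.finrank ℚ F ≤ m) (ι : F →+* ℂ) {c : 𝓞 F} (hc : c ≠ 0) {H : ℝ} (hH : 1 ≤ H)
    (h : ∀ φ : F →+* ℂ, ‖φ (c : F)‖ ≤ H) : 1 ≤ H ^ m * ‖ι (c : F)‖ := by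
  classical
  have h1 : (1 : ℝ) ≤ ‖algebraMap ℚ ℂ (Algebra.norm ℚ (c : F))‖ := by
    have h2 : ((Algebra.norm ℤ c : ℤ) : ℚ) = Algebra.norm ℚ (c : F) := Algebra.coe_norm_int c
    rw [← h2]
    have h3 : Algebra.norm ℤ c ≠ 0 := Algebra.norm_ne_zero_iff.2 hc
    have h4 : (1 : ℝ) ≤ |((Algebra.norm ℤ c : ℤ) : ℝ)| := by exact_mod_cast Int.one_le_abs h3
    simpa using h4
  rw [Algebra.norm_eq_prod_embeddings ℚ ℂ (c : F), norm_prod] at h1
  set ι' : F →ₐ[ℚ] ℂ := ι.toRatAlgHom with hι'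
  have h5 : ∏ φ : F →ₐ[ℚ] ℂ, ‖φ (c : F)‖ = ‖ι' (c : F)‖ * ∏ φ ∈ Finset.univ.erase ι', ‖φ (c : F)‖ :=
    (Finset.mul_prod_erase _ _ (Finset.mem_univ _)).symm
  rw [h5] at h1
  have h6 : ∏ φ ∈ Finset.univ.erase ι', ‖φ (c : F)‖ ≤ H ^ m := by
    calc ∏ φ ∈ Finset.univ.erase ι', ‖φ (c : F)‖ ≤ ∏ _φ ∈ Finset.univ.erase ι', H :=
          Finset.prod_le_prod (fun _ _ => norm_nonneg _) fun φ _ => h φ.toRingHom
      _ = H ^ (Finset.univ.erase ι').card := by rw [Finset.prod_const]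
      _ ≤ H ^ m := by
          refine pow_le_pow_right₀ hH ?_
          refine (Finset.card_le_card (Finset.erase_subset _ _)).trans ?_
          rw [Finset.card_univ, AlgHom.card ℚ F ℂ]
          exact hm
  calc (1 : ℝ) ≤ ‖ι' (c : F)‖ * ∏ φ ∈ Finset.univ.erase ι', ‖φ (c : F)‖ := h1
    _ ≤ ‖ι' (c : F)‖ * H ^ m := mul_le_mul_of_nonneg_left h6 (norm_nonneg _)
    _ = H ^ m * ‖ι (c : F)‖ := by rw [mul_comm]; rfl

theorem Expr.sub {d : ℕ} {H H' : ℝ} (hH : 2 * H ≤ H') {P Q : MvPolynomial σ (𝓞 F)} (hP : Expr d H P) (hQ : Expr d H Q) :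
    Expr d H' (P - Q) := by
  refine ⟨fun y => (MvPolynomial.degreeOf_sub_le y P Q).trans (max_le (hP.1 y) (hQ.1 y)), fun s φ => ?_⟩
  rw [MvPolynomial.coeff_sub]
  push_cast
  rw [map_sub]
  refine (norm_sub_le _ _).trans ?_
  have := hP.2 s φ
  have := hQ.2 s φ
  linarith

theorem val_sub (ι : F →+* ℂ) (v : σ → ℂ) (P Q : MvPolynomial σ (𝓞 F)) : val ι v (P - Q) = val ι v P - val ι v Q := by
  exact map_sub (MvPolynomial.eval₂Hom (ι.comp (algebraMap (𝓞 F) F)) v) P Q

/-- equal numbers have close approximations -/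
theorem close {A : ℝ} (hA : 0 ≤ A) {u v p q : ℂ} (hu : A * ‖u - p‖ ≤ 1) (hv : A * ‖v - q‖ ≤ 1) (h : p = q) :
    A * ‖u - v‖ ≤ 2 := by
  subst h
  have h1 : ‖u - v‖ ≤ ‖u - p‖ + ‖v - p‖ := by
    calc ‖u - v‖ = ‖(u - p) - (v - p)‖ := by congr 1; ring
      _ ≤ _ := norm_sub_le _ _
  calc A * ‖u - v‖ ≤ A * (‖u - p‖ + ‖v - p‖) := mul_le_mul_of_nonneg_left h1 hA
    _ = A * ‖u - p‖ + A * ‖v - p‖ := by ring
    _ ≤ 2 := by linarith

/-- the numbers of the library are good -/
def LGood {g : ℕ} (ι : F →+* ℂ) (ξ : Fin g → ℂ) (d : ℕ) (H δ : ℝ) (v : σ → ℂ) : Prop :=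
  (∀ P : MvPolynomial σ ℂ, ((∀ y, P.degreeOf y ≤ d) ∧
    ∀ s, ∃ c : Fin g → 𝓞 F, (∀ i (φ : F →+* ℂ), ‖φ (c i)‖ ≤ H) ∧ P.coeff s = ∑ i, ξ i * ι (c i)) →
      ∀ s, δ * ‖P.coeff s‖ ≤ ‖MvPolynomial.aeval v P‖) ∧
  ∀ Q : MvPolynomial (Option σ) (𝓞 F), Q ≠ 0 → (∀ x, Q.degreeOf x ≤ d) →
    (∀ s (φ : F →+* ℂ), ‖φ ((Q.coeff s : 𝓞 F) : F)‖ ≤ H) →
    MvPolynomial.eval₂ (ι.comp (algebraMap (𝓞 F) F)) (fun o => o.elim (Real.pi : ℂ) v) Q ≠ 0

theorem degreeOf_map_le {R S : Type} [CommRing R] [CommRing S] (φ : R →+* S) (P : MvPolynomial σ R) (y : σ) :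
    (P.map φ).degreeOf y ≤ P.degreeOf y := by
  classical
  rw [MvPolynomial.degreeOf_eq_sup, MvPolynomial.degreeOf_eq_sup]
  exact Finset.sup_mono (MvPolynomial.support_map_subset _ _)

theorem degreeOf_sum_le' {τ : Type} (t : Finset τ) (P : τ → MvPolynomial σ ℂ) (d : ℕ) (y : σ)
    (h : ∀ i ∈ t, (P i).degreeOf y ≤ d) : (∑ i ∈ t, P i).degreeOf y ≤ d := by
  classical
  induction t using Finset.induction_on with
  | empty => simp
  | insert a t ha ih =>
    rw [Finset.sum_insert ha]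
    refine (MvPolynomial.degreeOf_add_le _ _ _).trans (max_le (h a (Finset.mem_insert_self _ _)) ?_)
    exact ih fun i hi => h i (Finset.mem_insert_of_mem hi)

theorem correct_of {g m d : ℕ} (hm : Module.finrank ℚ F ≤ m) (ι : F →+* ℂ) (ξ : Fin g → ℂ) {H H' δ E : ℝ}
    (hH' : 1 ≤ H') (hH : 2 * H ≤ H') (hδ : 0 < δ) (hE : 5 * H' ^ m ≤ E * δ) {v : σ → ℂ}
    (hv : LGood ι (Fin.cons 1 ξ : Fin (g + 1) → ℂ) d H' δ v) : Correct ι ξ d H E v := by
  have hE0 : 0 < E * δ := lt_of_lt_of_le (by positivity) hE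
  have hE1 : 0 < E := by
    by_contra hcon
    push Not at hcon
    have := mul_nonpos_of_nonpos_of_nonneg hcon hδ.le
    linarith
  obtain ⟨hv1, hv2⟩ := hv
  have hH0 : 0 ≤ H' := by linarith
  refine ⟨fun P Q hP hQ => ?_, fun P Q hP hQ => ⟨fun heq => ?_, fun h => by rw [h]⟩, fun P Q hP hQ => ?_⟩
  · have key : P ≠ Q → 5 ≤ E * ‖val ι v P - val ι v Q‖ := by
      intro hne
      obtain ⟨s, hs⟩ : ∃ s, (P - Q).coeff s ≠ 0 := by
        by_contra hcon
        push Not at hcon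
        exact sub_ne_zero.2 hne (MvPolynomial.ext _ _ fun s => by rw [hcon s, MvPolynomial.coeff_zero])
      have hPQ := hP.sub hH hQ
      have h1 := hv1 ((P - Q).map (ι.comp (algebraMap (𝓞 F) F))) ⟨fun y => (degreeOf_map_le _ _ y).trans (hPQ.1 y),
        fun s => ⟨Fin.cons ((P - Q).coeff s) fun _ => 0, ?_, ?_⟩⟩ s
      · rw [MvPolynomial.coeff_map, MvPolynomial.aeval_def, MvPolynomial.eval₂_map] at h1
        have h2 := liou hm ι hs hH' fun φ => hPQ.2 s φ
        have h3 : MvPolynomial.eval₂ ((algebraMap ℂ ℂ).comp (ι.comp (algebraMap (𝓞 F) F))) v (P - Q) =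
            val ι v P - val ι v Q := by
          rw [← val_sub]
          rfl
        rw [h3] at h1
        have h4 : δ ≤ H' ^ m * ‖val ι v P - val ι v Q‖ := by
          calc δ = δ * 1 := (mul_one _).symm
            _ ≤ δ * (H' ^ m * ‖ι (((P - Q).coeff s : 𝓞 F) : F)‖) := mul_le_mul_of_nonneg_left h2 hδ.le
            _ = H' ^ m * (δ * ‖ι (((P - Q).coeff s : 𝓞 F) : F)‖) := by ring
            _ ≤ H' ^ m * ‖val ι v P - val ι v Q‖ := mul_le_mul_of_nonneg_left h1 (by positivity)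
        have h5 : 0 < H' ^ m := by positivity
        have h6 : 5 * H' ^ m ≤ E * ‖val ι v P - val ι v Q‖ * H' ^ m := by
          calc 5 * H' ^ m ≤ E * δ := hE
            _ ≤ E * (H' ^ m * ‖val ι v P - val ι v Q‖) := mul_le_mul_of_nonneg_left h4 hE1.le
            _ = _ := by ring
        exact le_of_mul_le_mul_right h6 h5
      · intro i φ
        refine Fin.cases ?_ (fun j => ?_) i
        · rw [Fin.cons_zero]
          exact hPQ.2 s φ
        · rw [Fin.cons_succ]
          simpa using hH0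
      · rw [MvPolynomial.coeff_map, Fin.sum_univ_succ]
        simp
    have h3 : val ι v P = val ι v Q ↔ P = Q := by
      constructor
      · intro h
        by_contra hne
        have := key hne
        rw [h, sub_self, norm_zero, mul_zero] at this
        linarith
      · rintro rfl
        rfl
    refine ⟨h3, fun u w hu hw => ⟨close hE1.le hu hw, fun h => ?_⟩⟩
    rw [h3]
    by_contra hne
    have h4 := key hne
    have h5 : ‖val ι v P - val ι v Q‖ ≤ ‖u - val ι v P‖ + ‖u - w‖ + ‖w - val ι v Q‖ := by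
      calc ‖val ι v P - val ι v Q‖ = ‖-(u - val ι v P) + (u - w) + (w - val ι v Q)‖ := by congr 1; ring
        _ ≤ ‖-(u - val ι v P)‖ + ‖u - w‖ + ‖w - val ι v Q‖ := norm_add₃_le
        _ = _ := by rw [norm_neg]
    have h6 : E * ‖val ι v P - val ι v Q‖ ≤ 4 := by
      calc E * ‖val ι v P - val ι v Q‖ ≤ E * (‖u - val ι v P‖ + ‖u - w‖ + ‖w - val ι v Q‖) :=
            mul_le_mul_of_nonneg_left h5 hE1.le
        _ = E * ‖u - val ι v P‖ + E * ‖u - w‖ + E * ‖w - val ι v Q‖ := by ring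
        _ ≤ 4 := by linarith
    linarith
  · by_contra hne
    have hPQ := hP.sub hH hQ
    have h1 := hv2 (P - Q) (sub_ne_zero.2 hne) hPQ.1 hPQ.2
    apply h1
    have h2 : MvPolynomial.eval₂ (ι.comp (algebraMap (𝓞 F) F)) (fun o => o.elim (Real.pi : ℂ) v) (P - Q) =
      val ι (fun o => o.elim (Real.pi : ℂ) v) P - val ι (fun o => o.elim (Real.pi : ℂ) v) Q := val_sub _ _ _ _
    rw [h2, heq, sub_self]
  · set S : MvPolynomial σ ℂ := ∑ i, MvPolynomial.C (ξ i) * (P i - Q i).map (ι.comp (algebraMap (𝓞 F) F)) with hS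
    have hScoeff : ∀ s, S.coeff s = ∑ i, ξ i * ι (((P i).coeff s : 𝓞 F) : F) - ∑ i, ξ i * ι (((Q i).coeff s : 𝓞 F) : F) := by
      intro s
      rw [hS, MvPolynomial.coeff_sum, ← Finset.sum_sub_distrib]
      refine Finset.sum_congr rfl fun i _ => ?_
      rw [MvPolynomial.coeff_C_mul, MvPolynomial.coeff_map, MvPolynomial.coeff_sub]
      simp only [RingHom.comp_apply, map_sub]
      ring
    have hSval : MvPolynomial.aeval v S = ∑ i, ξ i * val ι v (P i) - ∑ i, ξ i * val ι v (Q i) := by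
      rw [hS, map_sum, ← Finset.sum_sub_distrib]
      refine Finset.sum_congr rfl fun i _ => ?_
      rw [map_mul, MvPolynomial.aeval_C, ← mul_sub, ← val_sub]
      congr 1
      rw [MvPolynomial.aeval_def, MvPolynomial.eval₂_map]
      rfl
    have h1 := hv1 S ⟨fun y => degreeOf_sum_le' _ _ d y fun i _ => ?_, fun s => ⟨Fin.cons 0 fun i => (P i - Q i).coeff s, ?_, ?_⟩⟩
    · have h2 : ∀ s, ‖∑ i, ξ i * ι (((P i).coeff s : 𝓞 F) : F) - ∑ i, ξ i * ι (((Q i).coeff s : 𝓞 F) : F)‖ ≤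
          E * ‖∑ i, ξ i * val ι v (P i) - ∑ i, ξ i * val ι v (Q i)‖ := by
        intro s
        have h3 := h1 s
        rw [hScoeff, hSval] at h3
        have h4 : (1 : ℝ) ≤ E * δ := by
          refine le_trans ?_ hE
          have : (1 : ℝ) ≤ H' ^ m := one_le_pow₀ hH'
          linarith
        set a := ‖∑ i, ξ i * ι (((P i).coeff s : 𝓞 F) : F) - ∑ i, ξ i * ι (((Q i).coeff s : 𝓞 F) : F)‖
        calc a = 1 * a := (one_mul _).symm
          _ ≤ E * δ * a := mul_le_mul_of_nonneg_right h4 (norm_nonneg _)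
          _ = E * (δ * a) := by ring
          _ ≤ _ := mul_le_mul_of_nonneg_left h3 hE1.le
      refine ⟨⟨fun heq s => ?_, fun hall => ?_⟩, h2⟩
      · have h3 := h2 s
        rw [heq, sub_self, norm_zero, mul_zero] at h3
        exact sub_eq_zero.1 (norm_le_zero_iff.1 h3)
      · have h3 : S = 0 := by
          refine MvPolynomial.ext _ _ fun s => ?_
          rw [hScoeff, hall s, sub_self, MvPolynomial.coeff_zero]
        rw [h3, map_zero] at hSval
        exact sub_eq_zero.1 hSval.symm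
    · refine (MvPolynomial.degreeOf_C_mul_le _ _ _).trans ((degreeOf_map_le _ _ y).trans ?_)
      exact ((hP i).sub hH (hQ i)).1 y
    · intro i φ
      refine Fin.cases ?_ (fun j => ?_) i
      · rw [Fin.cons_zero]
        simpa using hH0
      · rw [Fin.cons_succ]
        exact ((hP j).sub hH (hQ j)).2 s φ
    · rw [hScoeff, Fin.sum_univ_succ]
      simp only [Fin.cons_zero, Fin.cons_succ, map_zero, mul_zero, zero_add]
      rw [← Finset.sum_sub_distrib]
      refine Finset.sum_congr rfl fun i _ => ?_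
      rw [MvPolynomial.coeff_sub]
      push_cast
      rw [map_sub]
      ring

end proof

/-- Let `K` be a compact subset of the unit disc without `(-1, 0]`. For all `w`, `n`, `m`, `g`, `d`, `A` and `δ > 0` there
are `B`, `C`, `T₀` with the property stated above. -/
theorem result (w n : ℕ) (K : Set ℂ) (hK : IsCompact K) (hK1 : K ⊆ Metric.ball 0 1) (hK2 : K ⊆ Complex.slitPlane)
    (m g d : ℕ) (A δ : ℝ) (hδ : 0 < δ) :
    ∃ (B : ℝ) (C : ℕ) (T₀ : ℝ), ∀ (F : Type) [Field F] [NumberField F], Module.finrank ℚ F ≤ m →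
      ∀ (ι : F →+* ℂ) (ξ : Fin g → ℂ) (T : ℝ), T₀ ≤ T → ∀ X : Fin n → Finset F,
        (∀ j, ∀ x ∈ X j, ι x ∈ K ∧ HeightLe F T x) → (∀ j, ∀ x ∈ X j, ∀ y ∈ X j, ‖ι x - ι y‖ ≤ T ^ (-δ)) →
        (({x : Fin n → F | (∀ j, x j ∈ X j) ∧ ¬ Correct ι ξ d (T ^ A) (T ^ B)
          (fun k : Fin n × Fin (w + 1) => f k.2 (ι (x k.1)))}.ncard : ℝ) ≤
          C * ∑ j, ∏ i ∈ Finset.univ.erase j, ((X i).card : ℝ)) ∧
        ((∀ j, C < (X j).card) → ∃ x : Fin n → F, (∀ j, x j ∈ X j) ∧ Correct ι ξ d (T ^ A) (T ^ B)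
          (fun k : Fin n × Fin (w + 1) => f k.2 (ι (x k.1)))) := by
  have hf : f = Pool.Agent.R349.Semi.plC := by
    funext k z
    rfl
  rw [hf]
  obtain ⟨B, C, T₀, H⟩ := Pool.Agent.R349.Gen.shortG m n (g + 1) d
    (fun (_ : Fin n) (k : Fin (w + 1)) => Pool.Agent.R349.Semi.plC (k : ℕ)) K hK
    (fun _ k t ht => Pool.Agent.R349.Semi.plC_an k t ⟨hK1 ht, hK2 ht⟩)
    (fun _ t ht => Pool.Agent.R349.Semi.plC_locInd w t ⟨hK1 ht, hK2 ht⟩) (|A| + 1) δ hδ
  refine ⟨B + (|A| + 1) * m + 3, C, max T₀ 2, fun F _ _ hF ι ξ T hT X hX1 hX2 => ?_⟩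
  have hT2 : 2 ≤ T := (le_max_right _ _).trans hT
  have hT1 : 1 ≤ T := by linarith
  have hTpos : 0 < T := by linarith
  obtain ⟨H1, H2⟩ := H F hF ι (Fin.cons 1 ξ) T ((le_max_left _ _).trans hT) X hX1 hX2
  have hgood : ∀ v : Fin n × Fin (w + 1) → ℂ, LGood ι (Fin.cons 1 ξ : Fin (g + 1) → ℂ) d (T ^ (|A| + 1)) (T ^ (-B)) v →
      Correct ι ξ d (T ^ A) (T ^ (B + (|A| + 1) * m + 3)) v := by
    intro v hv
    have hA1 : (1 : ℝ) ≤ T ^ (|A| + 1) := Real.one_le_rpow hT1 (by positivity)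
    refine correct_of hF ι ξ hA1 ?_ (Real.rpow_pos_of_pos hTpos _) ?_ hv
    · rw [Real.rpow_add hTpos, Real.rpow_one]
      have h1 : T ^ A ≤ T ^ |A| := Real.rpow_le_rpow_of_exponent_le hT1 (le_abs_self _)
      have h2 : 0 ≤ T ^ A := Real.rpow_nonneg hTpos.le _
      nlinarith
    · rw [← Real.rpow_add hTpos, ← Real.rpow_natCast (T ^ (|A| + 1)) m, ← Real.rpow_mul hTpos.le]
      have h1 : B + (|A| + 1) * m + 3 + -B = (|A| + 1) * m + 3 := by ring
      rw [h1, Real.rpow_add hTpos ((|A| + 1) * m) 3]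
      have h2 : (5 : ℝ) ≤ T ^ (3 : ℝ) := by
        have : (T : ℝ) ^ (3 : ℝ) = T ^ 3 := by
          rw [← Real.rpow_natCast T 3]
          norm_num
        rw [this]
        nlinarith [sq_nonneg T, mul_pos hTpos hTpos]
      rw [mul_comm]
      exact mul_le_mul_of_nonneg_left h2 (Real.rpow_nonneg hTpos.le _)
  refine ⟨?_, fun hcard => ?_⟩
  · refine le_trans ?_ H1
    have hfin : {x : Fin n → F | ∀ j, x j ∈ X j}.Finite := by
      refine Set.Finite.subset (Fintype.piFinset X).finite_toSet fun x hx => ?_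
      exact Fintype.mem_piFinset.2 hx
    refine Nat.cast_le.2 (Set.ncard_le_ncard ?_ (hfin.subset fun x hx => hx.1))
    rintro x ⟨hx1, hx2⟩
    exact ⟨hx1, fun hcon => hx2 (hgood _ hcon)⟩
  · obtain ⟨x, hx1, hx2⟩ := H2 hcard
    exact ⟨x, hx1, hgood _ hx2⟩

end Pool.Agent.Results.MP_bbe012_lc.AlgebraicPointsInDiscs
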