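import Pool.Agent.TH50.DQ.MeasH

/-!
# Comparing dilogarithmic periods at every integer: a numerical test without exceptions

Let `Q ≥ 3` or `Q ≤ -2` be an integer. The real periods `x₀ + x₁ log(1 - 1/Q) + x₂ Li₂(1/Q)`, with rational `x₀, x₁, x₂`,
form a vector space of periods (of mixed Tate motives of weights `0`, `2`, `4`); `Li₂(1/Q) = ∑_(k ≥ 1) 1 / (k² Q^k)` is a double integral
`∬ dx dy / (Q - x y)` over the unit square. We show that, for every such `Q`, the equality of two of these periods is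
decided by the comparison of `7008 log H` digits: if the coefficients have numerators and denominators at most `H` in absolute
value, and `u`, `v` are any approximations of the two periods with the precision `H ^ (-7008)`, then the periods are equal if
and only if `|u - v| ≤ 2 H ^ (-7008)`, for all `H` larger than a number which depends on `Q`; and they are equal if and only if the
coefficients are equal. So the problem of the equality of periods has a positive answer for the pairs of these periods, for every `Q`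
(the starting result `ComparingDigits` contains an equality test for polynomials in hyperlogarithms at almost all points).

The proof is an application of the linear independence measure for `1, log(1 - 1/Q), Li₂(1/Q)` of the team library
(`Pool.Agent.TH50.DQ.Mea.measure_all`: helper50, helper634, helper496, helper811, helper986, helper111, helper91, helper75,
helper169, helper643 and others).
-/

set_option autoImplicit false

namespace Pool.Agent.Results.MP_bbe012_lc.DilogarithmsEveryInteger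

/-- the period `x₀ + x₁ log(1 - 1/Q) + x₂ Li₂(1/Q)` -/
noncomputable def val (Q : ℤ) (x : Fin 3 → ℚ) : ℝ :=
  (x 0 : ℝ) + (x 1 : ℝ) * Real.log (1 - 1 / (Q : ℝ)) + (x 2 : ℝ) * ∑' k : ℕ, (1 / (Q : ℝ)) ^ (k + 1) / ((k : ℝ) + 1) ^ 2

/-- the numerators and denominators of the coefficients are at most `H` in absolute value -/
def HeightLe (H : ℝ) (x : Fin 3 → ℚ) : Prop := ∀ i, |((x i).num : ℝ)| ≤ H ∧ ((x i).den : ℝ) ≤ H

/-- a common denominator of the coefficients -/
def cden (x y : Fin 3 → ℚ) : ℕ := (∏ i, (x i).den) * ∏ i, (y i).den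

theorem cden_pos (x y : Fin 3 → ℚ) : 0 < cden x y :=
  Nat.mul_pos (Finset.prod_pos fun i _ => (x i).den_pos) (Finset.prod_pos fun i _ => (y i).den_pos)

theorem int_of_dvd (q : ℚ) {D : ℕ} (h : q.den ∣ D) : ∃ z : ℤ, (D : ℚ) * q = z := by
  obtain ⟨e, rfl⟩ := h
  refine ⟨e * q.num, ?_⟩
  push_cast
  have h1 : (q.den : ℚ) * q = q.num := by
    rw [mul_comm]
    exact Rat.mul_den_eq_num q
  calc (q.den : ℚ) * e * q = e * (q.den * q) := by ring
    _ = e * q.num := by rw [h1]

theorem cden_int (x y : Fin 3 → ℚ) (i : Fin 3) : ∃ z : ℤ, (cden x y : ℚ) * (x i - y i) = z := by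
  obtain ⟨a, ha⟩ := int_of_dvd (x i) (D := cden x y)
    ((Finset.dvd_prod_of_mem (fun i => (x i).den) (Finset.mem_univ i)).trans (Dvd.intro _ rfl))
  obtain ⟨b, hb⟩ := int_of_dvd (y i) (D := cden x y)
    ((Finset.dvd_prod_of_mem (fun i => (y i).den) (Finset.mem_univ i)).trans (Dvd.intro_left _ rfl))
  refine ⟨a - b, ?_⟩
  rw [mul_sub, ha, hb]
  push_cast
  ring

theorem cden_le {H : ℝ} {x y : Fin 3 → ℚ} (hx : HeightLe H x) (hy : HeightLe H y) :
    (cden x y : ℝ) ≤ H ^ 6 := by
  have h1 : ∀ z : Fin 3 → ℚ, HeightLe H z → ((∏ i, (z i).den : ℕ) : ℝ) ≤ H ^ 3 := by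
    intro z hz
    push_cast
    calc ∏ i, ((z i).den : ℝ) ≤ ∏ _i : Fin 3, H :=
          Finset.prod_le_prod (fun _ _ => Nat.cast_nonneg _) fun i _ => (hz i).2
      _ = H ^ 3 := by simp
  unfold cden
  rw [Nat.cast_mul]
  have hH : 0 ≤ H := (Nat.cast_nonneg _).trans (hx 0).2
  calc ((∏ i, (x i).den : ℕ) : ℝ) * ((∏ i, (y i).den : ℕ) : ℝ) ≤ H ^ 3 * H ^ 3 :=
        mul_le_mul (h1 x hx) (h1 y hy) (Nat.cast_nonneg _) (by positivity)
    _ = H ^ 6 := by ring

theorem abs_le_of {H : ℝ} {x : Fin 3 → ℚ} (hx : HeightLe H x) (i : Fin 3) : |(x i : ℝ)| ≤ H := by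
  have h1 : (1 : ℝ) ≤ (x i).den := by exact_mod_cast (x i).den_pos
  have h2 : (x i : ℝ) = (x i).num / (x i).den := by exact_mod_cast (Rat.num_div_den (x i)).symm
  rw [h2, abs_div, abs_of_nonneg (by linarith : (0 : ℝ) ≤ (x i).den)]
  exact (div_le_self (abs_nonneg _) h1).trans (hx i).1

/-- the lower bound for the distance of two different periods -/
theorem sep (Q : ℤ) (hQ : 3 ≤ Q ∨ Q ≤ -2) : ∃ c : ℝ, 0 < c ∧ ∀ H : ℝ, 1 ≤ H → ∀ x y : Fin 3 → ℚ, HeightLe H x →
    HeightLe H y → x ≠ y → c ≤ H ^ 7006 * |val Q x - val Q y| := by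
  obtain ⟨c, hc, hm⟩ := Pool.Agent.TH50.DQ.Mea.measure_all hQ
  refine ⟨min (c / 2 ^ 1000) 1, lt_min (by positivity) one_pos, fun H hH x y hx hy hne => ?_⟩
  have hH0 : 0 < H := by linarith
  set D : ℝ := (cden x y : ℝ) with hD
  have hD0 : 0 < D := Nat.cast_pos.2 (cden_pos x y)
  have hD6 : D ≤ H ^ 6 := cden_le hx hy
  choose z hz using cden_int x y
  have hzr : ∀ i, (z i : ℝ) = D * ((x i : ℝ) - (y i : ℝ)) := by
    intro i
    have := hz i
    have h2 : ((z i : ℚ) : ℝ) = ((cden x y * (x i - y i) : ℚ) : ℝ) := by rw [this]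
    push_cast at h2
    exact h2
  have hzb : ∀ i, |(z i : ℝ)| ≤ 2 * H ^ 7 := by
    intro i
    rw [hzr, abs_mul, abs_of_pos hD0]
    have h1 : |(x i : ℝ) - (y i : ℝ)| ≤ 2 * H := by
      refine (abs_sub _ _).trans ?_
      have := abs_le_of hx i
      have := abs_le_of hy i
      linarith
    calc D * |(x i : ℝ) - (y i : ℝ)| ≤ H ^ 6 * (2 * H) := mul_le_mul hD6 h1 (abs_nonneg _) (by positivity)
      _ = 2 * H ^ 7 := by ring
  have hval : D * (val Q x - val Q y) = (z 0 : ℝ) + z 1 * Real.log (1 - 1 / (Q : ℝ)) +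
      z 2 * ∑' k : ℕ, (1 / (Q : ℝ)) ^ (k + 1) / ((k : ℝ) + 1) ^ 2 := by
    unfold val
    rw [hzr, hzr, hzr]
    ring
  have hvab : |val Q x - val Q y| = |D * (val Q x - val Q y)| / D := by
    rw [abs_mul, abs_of_pos hD0]
    field_simp
  rw [hvab, hval]
  by_cases h12 : z 1 ≠ 0 ∨ z 2 ≠ 0
  · have h1 := hm (z 1) (z 2) (z 0) h12
    have hmax : (1 : ℝ) ≤ max |(z 1 : ℝ)| |(z 2 : ℝ)| := by
      rcases h12 with h | h
      · refine le_trans ?_ (le_max_left _ _)
        exact_mod_cast Int.one_le_abs h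
      · refine le_trans ?_ (le_max_right _ _)
        exact_mod_cast Int.one_le_abs h
    have hmax2 : max |(z 1 : ℝ)| |(z 2 : ℝ)| ≤ 2 * H ^ 7 := max_le (hzb 1) (hzb 2)
    have h2 : c / (2 * H ^ 7) ^ 1000 ≤ |(z 0 : ℝ) + z 1 * Real.log (1 - 1 / (Q : ℝ)) +
        z 2 * ∑' k : ℕ, (1 / (Q : ℝ)) ^ (k + 1) / ((k : ℝ) + 1) ^ 2| := by
      refine le_trans ?_ h1
      exact div_le_div_of_nonneg_left hc.le (by positivity) (pow_le_pow_left₀ (by linarith) hmax2 _)
    refine (min_le_left _ _).trans ?_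
    set L := |(z 0 : ℝ) + z 1 * Real.log (1 - 1 / (Q : ℝ)) +
        z 2 * ∑' k : ℕ, (1 / (Q : ℝ)) ^ (k + 1) / ((k : ℝ) + 1) ^ 2| with hL
    have h3 : L / H ^ 6 ≤ L / D := div_le_div_of_nonneg_left (abs_nonneg _) hD0 hD6
    have h4 : c / 2 ^ 1000 = H ^ 7006 * ((c / (2 * H ^ 7) ^ 1000) / H ^ 6) := by
      rw [mul_pow, ← pow_mul]
      field_simp
    rw [h4]
    refine mul_le_mul_of_nonneg_left ?_ (by positivity)
    exact (div_le_div_of_nonneg_right h2 (by positivity)).trans h3
  · push Not at h12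
    obtain ⟨h1, h2⟩ := h12
    have h0 : z 0 ≠ 0 := by
      intro h0
      apply hne
      funext i
      have h3 : z i = 0 := by
        fin_cases i
        · exact h0
        · exact h1
        · exact h2
      have h4 := hz i
      rw [h3, Int.cast_zero, mul_eq_zero] at h4
      rcases h4 with h4 | h4
      · exact absurd h4 (by exact_mod_cast (cden_pos x y).ne')
      · exact sub_eq_zero.1 h4
    rw [h1, h2]
    simp only [Int.cast_zero, zero_mul, add_zero]
    refine (min_le_right _ _).trans ?_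
    have h3 : (1 : ℝ) ≤ |(z 0 : ℝ)| := by exact_mod_cast Int.one_le_abs h0
    have h4 : 1 / H ^ 6 ≤ |(z 0 : ℝ)| / D :=
      (div_le_div_of_nonneg_left (by norm_num) hD0 hD6).trans (div_le_div_of_nonneg_right h3 hD0.le)
    calc (1 : ℝ) ≤ H ^ 7000 := one_le_pow₀ hH
      _ = H ^ 7006 * (1 / H ^ 6) := by
          rw [show (7006 : ℕ) = 7000 + 6 from rfl, pow_add]
          field_simp
      _ ≤ _ := mul_le_mul_of_nonneg_left h4 (by positivity)

/-- **Every integer `Q ≥ 3` or `Q ≤ -2`.** There is `H₀` such that for all `H ≥ H₀` and all `x`, `y` with numerators and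
denominators at most `H`: the periods `val Q x` and `val Q y` are equal if and only if `x = y`, and if and only if any
approximations with the precision `H ^ (-7008)` differ by at most `2 H ^ (-7008)`. -/
theorem result (Q : ℤ) (hQ : 3 ≤ Q ∨ Q ≤ -2) : ∃ H₀ : ℝ, ∀ H : ℝ, H₀ ≤ H → ∀ x y : Fin 3 → ℚ,
    HeightLe H x → HeightLe H y →
    (val Q x = val Q y ↔ x = y) ∧
    ∀ u v : ℝ, H ^ 7008 * |u - val Q x| ≤ 1 → H ^ 7008 * |v - val Q y| ≤ 1 →
      (val Q x = val Q y ↔ H ^ 7008 * |u - v| ≤ 2) := by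
  obtain ⟨c, hc, hsep⟩ := sep Q hQ
  refine ⟨max 1 (5 / c), fun H hH x y hx hy => ?_⟩
  have hH1 : 1 ≤ H := (le_max_left _ _).trans hH
  have hHc : 5 / c ≤ H := (le_max_right _ _).trans hH
  have hH0 : 0 < H := by linarith
  have key : x ≠ y → 5 ≤ H ^ 7008 * |val Q x - val Q y| := by
    intro hne
    have h1 := hsep H hH1 x y hx hy hne
    have h2 : 5 ≤ H * c := by
      rw [div_le_iff₀ hc] at hHc
      exact hHc
    calc (5 : ℝ) ≤ H * c := h2
      _ ≤ H ^ 2 * c := mul_le_mul_of_nonneg_right (le_self_pow₀ hH1 (by norm_num)) hc.le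
      _ ≤ H ^ 2 * (H ^ 7006 * |val Q x - val Q y|) := mul_le_mul_of_nonneg_left h1 (by positivity)
      _ = _ := by rw [← mul_assoc, ← pow_add]
  have h3 : val Q x = val Q y ↔ x = y := by
    constructor
    · intro h
      by_contra hne
      have := key hne
      rw [h, sub_self, abs_zero, mul_zero] at this
      linarith
    · rintro rfl
      rfl
  refine ⟨h3, fun u v hu hv => ⟨fun h => ?_, fun h => ?_⟩⟩
  · have h4 : |u - v| ≤ |u - val Q x| + |v - val Q y| := by
      calc |u - v| = |(u - val Q x) - (v - val Q y)| := by rw [h]; congr 1; ring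
        _ ≤ _ := abs_sub _ _
    calc H ^ 7008 * |u - v| ≤ H ^ 7008 * (|u - val Q x| + |v - val Q y|) :=
          mul_le_mul_of_nonneg_left h4 (by positivity)
      _ = H ^ 7008 * |u - val Q x| + H ^ 7008 * |v - val Q y| := by ring
      _ ≤ 2 := by linarith
  · rw [h3]
    by_contra hne
    have h4 := key hne
    have h5 : |val Q x - val Q y| ≤ |u - val Q x| + |u - v| + |v - val Q y| := by
      calc |val Q x - val Q y| = |-(u - val Q x) + (u - v) + (v - val Q y)| := by congr 1; ring
        _ ≤ |-(u - val Q x)| + |u - v| + |v - val Q y| := abs_add_three _ _ _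
        _ = _ := by rw [abs_neg]
    have h6 : H ^ 7008 * |val Q x - val Q y| ≤ 4 := by
      calc H ^ 7008 * |val Q x - val Q y| ≤ H ^ 7008 * (|u - val Q x| + |u - v| + |v - val Q y|) :=
            mul_le_mul_of_nonneg_left h5 (by positivity)
        _ = H ^ 7008 * |u - val Q x| + H ^ 7008 * |u - v| + H ^ 7008 * |v - val Q y| := by ring
        _ ≤ 4 := by linarith
    linarith

end Pool.Agent.Results.MP_bbe012_lc.DilogarithmsEveryInteger
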