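import Pool.Agent.Q189.MF.TorD

/-!
# Equality of periods for almost all fibres of families of varieties: a formal and a numerical test

Near a point `x = 0` of the base the periods of a family of algebraic varieties over `P¹`, defined over `ℚ`, are
polynomials in `log x`, in G-functions `h_1(x), …, h_r(x)` with rational coefficients and in constants `ζ_1, …, ζ_g`, the
periods of the limit motive; the point `0` may be a point of degeneration. We consider several families `h_j`, one for
each `j < k`, connected and with the usual conditions (`GFamily`, `Connected`), and the fibres at `x = 1 / α_j`, where the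
`α_j` are algebraic integers; the families can be different or equal. Examples are the hypergeometric families, the families of
the elliptic curves near `j = ∞`, and the hyperlogarithms of the starting result `ComparingDigits`.

The theorem is about the periods which are presented by polynomials `P`, `Q` in all determinations `ℓ_j` of the `log α_j`,
in the `h_(j,i)(1 / α_j)` and in the `α_j`, with integral coefficients, of degree at most `d` and height at most `H`. For
almost all tuples `α` of algebraic integers of degree at most `m` with conjugates at most `T`: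

* (formal test) the values of `P` and `Q` are equal if and only if `P` and `Q` are equal on the product of the fibres of the
  varieties defined by the functional relations, that is if and only if their equality follows from the functional relations between
  the periods of the families;
* (numerical test) this is decided by the comparison of any approximations of both values with the precision `H ^ (-B)`:
  the values are equal if and only if the approximations differ by at most `2 H ^ (-B)`. So for these presentations equality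
  is decided by comparing `O(log H)` digits, where the constant does not depend on the fibres;
* (relative version) let `ζ_1, …, ζ_g` be arbitrary complex numbers, for instance `π` and the periods of a fixed motive
  `M₀`. The values of two polynomials `P`, `Q` in the numbers above and the `ζ_i` are equal if and only if `P` and `Q`, with the
  constants `ζ` and `α` inserted, are equal on the product of the fibres. So the equality of periods of the sum of `M₀` and the
  fibres is reduced to equalities between periods of `M₀`: the coefficients of `P - Q` in terms of a basis of the functions on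
  the fibres.

The exponent `B` and the exceptional sets (in number) depend only on the families and on `d`, `m`, `g`. The test is correct for all
heights `H` with `H₁ ≤ H ≤ H₁ ^ exp (T ^ c)`, outside a proportion `C T ^ (-c)` of the tuples, for every large `H₁`; and,
outside such a proportion, it is correct for almost all scales of arbitrarily large sets of scales.

The proof is an application of `Pool.Agent.Q189.MF.torD` (near relations between values of several families of
G-functions, after helper246) with `Pool.Agent.Q246.AF.t_famN`.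
-/

set_option autoImplicit false

open PowerSeries

namespace Pool.Agent.Results.MP_bbe012_lc.FamiliesOfVarieties

/-- an integer polynomial as a power series with rational coefficients -/
noncomputable def toQ (P : Polynomial ℤ) : PowerSeries ℚ := ((P.map (Int.castRingHom ℚ) : Polynomial ℚ) : PowerSeries ℚ)

/-- the power series `P(u^e)` -/
noncomputable def atPow (e : ℕ) (P : Polynomial ℤ) : PowerSeries ℂ :=
  ((Polynomial.expand ℂ e (P.map (Int.castRingHom ℂ)) : Polynomial ℂ) : PowerSeries ℂ)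

/-- the matrices `G_s` over `ℤ[x]` with `T^s y^(s) = G_s y` for all solutions `y` of `T y' = A y` -/
noncomputable def iter {r : ℕ} (T : Polynomial ℤ) (A : Fin r → Fin r → Polynomial ℤ) : ℕ → Fin r → Fin r → Polynomial ℤ
  | 0 => fun i j => if i = j then 1 else 0
  | s + 1 => fun i j => T * Polynomial.derivative (iter T A s i j) + ∑ l, iter T A s i l * A l j -
      (s : Polynomial ℤ) * (Polynomial.derivative T * iter T A s i j)

/-- The system `T y' = A y` has a fundamental matrix of solutions of the form `u^(-M) ∑_n Φ_n(u) (log u)^n` with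
`u^e = x` and convergent power series `Φ_n`: the point `0` is an ordinary point or a regular singularity with rational
exponents. -/
def QuasiUnipotent {r : ℕ} (T : Polynomial ℤ) (A : Fin r → Fin r → Polynomial ℤ) : Prop :=
  ∃ (e M : ℕ) (K : ℝ) (Φ : Matrix (Fin r) (Fin r) (Polynomial (PowerSeries ℂ))), 1 ≤ e ∧ Φ.det ≠ 0 ∧
    (∀ i j n m, ‖coeff m ((Φ i j).coeff n)‖ ≤ K ^ (m + 1)) ∧
    ∀ i j n, atPow e T * (X * PowerSeries.derivative ℂ ((Φ i j).coeff n) +
        ((n : PowerSeries ℂ) + 1) * (Φ i j).coeff (n + 1) - (M : PowerSeries ℂ) * (Φ i j).coeff n) =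
      (e : PowerSeries ℂ) * X ^ e * ∑ l, atPow e (A i l) * (Φ l j).coeff n

/-- `h_1, ..., h_r` are G-functions with rational coefficients which solve the differential system `T y' = A y`, with
the conditions of Siegel and Galochkin, and the system is regular with rational exponents at `0`. -/
structure GFamily {r : ℕ} (T : Polynomial ℤ) (A : Fin r → Fin r → Polynomial ℤ) (h : Fin r → PowerSeries ℚ) : Prop where
  /-- the denominator is not zero -/
  T_ne : T ≠ 0
  /-- the differential equations -/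
  ode : ∀ i, toQ T * PowerSeries.derivative ℚ (h i) = ∑ j, toQ (A i j) * h j
  /-- the coefficients have geometric growth -/
  size : ∃ C : ℝ, ∀ i m, |((coeff m (h i) : ℚ) : ℝ)| ≤ C ^ (m + 1)
  /-- the common denominators of the coefficients have geometric growth -/
  den : ∃ C : ℝ, ∀ m : ℕ, ∃ d : ℕ, 0 < d ∧ (d : ℝ) ≤ C ^ (m + 1) ∧ ∀ i, ∀ j ≤ m, ∃ a : ℤ, (d : ℚ) * coeff j (h i) = a
  /-- Galochkin's condition: the common denominators of the matrices `G_s / s!` have geometric growth -/
  galochkin : ∃ C : ℝ, ∀ m : ℕ, ∃ d : ℕ, 0 < d ∧ (d : ℝ) ≤ C ^ (m + 1) ∧ ∀ s ≤ m, ∀ i j,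
    ∃ H : Polynomial ℤ, (d : Polynomial ℤ) * iter T A s i j = (s.factorial : Polynomial ℤ) * H
  /-- the local exponents at `0` are rational and the singularity is regular -/
  regular : QuasiUnipotent T A

/-- The family is connected: every element of the field `ℚ(x, h_1, ..., h_r)` which is algebraic over `ℚ(x)` is in
`ℚ(x)`; the elements of this field are the quotients `A(h) / B(h)`, where `A`, `B` are polynomials over `ℚ[x]`. -/
def Connected {r : ℕ} (h : Fin r → PowerSeries ℚ) : Prop := ∀ A B : MvPolynomial (Fin r) (Polynomial ℚ),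
  IsAlgebraic (Polynomial ℚ) (algebraMap (PowerSeries ℚ) (FractionRing (PowerSeries ℚ)) (MvPolynomial.aeval h A) /
    algebraMap (PowerSeries ℚ) (FractionRing (PowerSeries ℚ)) (MvPolynomial.aeval h B)) →
  ∃ a b : Polynomial ℚ, b ≠ 0 ∧ algebraMap (PowerSeries ℚ) (FractionRing (PowerSeries ℚ)) (MvPolynomial.aeval h A) /
    algebraMap (PowerSeries ℚ) (FractionRing (PowerSeries ℚ)) (MvPolynomial.aeval h B) =
      algebraMap (Polynomial ℚ) (FractionRing (PowerSeries ℚ)) a /
        algebraMap (Polynomial ℚ) (FractionRing (PowerSeries ℚ)) b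

section
variable {k : ℕ} {r : Fin k → ℕ}

/-- the algebraic integers of degree at most `m` all of whose conjugates have absolute value at most `T` -/
def Ints (m T : ℕ) : Set ℂ :=
  {α | IsIntegral ℤ α ∧ (minpoly ℚ α).natDegree ≤ m ∧ ∀ z : ℂ, Polynomial.aeval z (minpoly ℚ α) = 0 → ‖z‖ ≤ T}

/-- the value `h_i(1 / α)` -/
noncomputable def value {r : ℕ} (h : Fin r → PowerSeries ℚ) (α : ℂ) (i : Fin r) : ℂ :=
  ∑' n : ℕ, ((coeff n (h i) : ℚ) : ℂ) * (1 / α) ^ n

/-- the variables: for every `j` one for the logarithm and one for every function `h_(j,i)` -/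
abbrev Var (r : Fin k → ℕ) : Type := Σ j : Fin k, Option (Fin (r j))

/-- the point with the coordinates `ℓ_j` and `h_(j,i)(1 / α_j)` -/
noncomputable def point (h : ∀ j, Fin (r j) → PowerSeries ℚ) (α ℓ : Fin k → ℂ) : Var r → ℂ :=
  fun a => a.2.elim (ℓ a.1) fun i => value (h a.1) (α a.1) i

/-- the common zeros of the specialisations at `x = 1 / α` of all polynomial relations `R(x, h(x)) = 0` over `ℚ[x]` -/
def Fibre {r : ℕ} (h : Fin r → PowerSeries ℚ) (α : ℂ) : Set (Fin r → ℂ) :=
  {y | ∀ R : MvPolynomial (Fin r) (Polynomial ℚ), MvPolynomial.aeval h R = 0 →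
    MvPolynomial.eval₂ (Polynomial.aeval (1 / α) : Polynomial ℚ →ₐ[ℚ] ℂ).toRingHom y R = 0}

/-- the product of the fibres at `1 / α_j` and of `k` lines, on which the logarithms vary freely -/
def Fibres (h : ∀ j, Fin (r j) → PowerSeries ℚ) (α : Fin k → ℂ) : Set (Var r → ℂ) :=
  {y | ∀ j, (fun i => y ⟨j, some i⟩) ∈ Fibre (h j) (α j)}

/-- the polynomials with integral coefficients of degree at most `d` and height at most `H` -/
def Expr {σ : Type} (d : ℕ) (H : ℝ) (P : MvPolynomial σ ℤ) : Prop :=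
  P.totalDegree ≤ d ∧ ∀ e, |((P.coeff e : ℤ) : ℝ)| ≤ H

/-- The tests at the height `H` with the precision `H ^ (-B)` are correct, for all determinations `ℓ_j` of `log α_j` with
`|ℓ_j| ≤ H`. -/
def Correct {g : ℕ} (h : ∀ j, Fin (r j) → PowerSeries ℚ) (d B : ℕ) (ζ : Fin g → ℂ) (α : Fin k → ℂ) (H : ℝ) : Prop :=
  ∀ ℓ : Fin k → ℂ, (∀ j, Complex.exp (ℓ j) = α j) → (∀ j, ‖ℓ j‖ ≤ H) →
    (∀ P Q : MvPolynomial (Var r ⊕ Fin k) ℤ, Expr d H P → Expr d H Q →
      (MvPolynomial.aeval (Sum.elim (point h α ℓ) α) P = MvPolynomial.aeval (Sum.elim (point h α ℓ) α) Q ↔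
        ∀ y ∈ Fibres h α, MvPolynomial.aeval (Sum.elim y α) P = MvPolynomial.aeval (Sum.elim y α) Q) ∧
      ∀ u v : ℂ, H ^ B * ‖u - MvPolynomial.aeval (Sum.elim (point h α ℓ) α) P‖ ≤ 1 →
        H ^ B * ‖v - MvPolynomial.aeval (Sum.elim (point h α ℓ) α) Q‖ ≤ 1 →
        (MvPolynomial.aeval (Sum.elim (point h α ℓ) α) P = MvPolynomial.aeval (Sum.elim (point h α ℓ) α) Q ↔
          H ^ B * ‖u - v‖ ≤ 2)) ∧
    ∀ P Q : MvPolynomial (Var r ⊕ (Fin g ⊕ Fin k)) ℤ, Expr d H P → Expr d H Q →
      (MvPolynomial.aeval (Sum.elim (point h α ℓ) (Sum.elim ζ α)) P =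
          MvPolynomial.aeval (Sum.elim (point h α ℓ) (Sum.elim ζ α)) Q ↔
        ∀ y ∈ Fibres h α, MvPolynomial.aeval (Sum.elim y (Sum.elim ζ α)) P =
          MvPolynomial.aeval (Sum.elim y (Sum.elim ζ α)) Q)

end

theorem iter_eq {r : ℕ} (T : Polynomial ℤ) (A : Fin r → Fin r → Polynomial ℤ) (s : ℕ) :
    iter T A s = Pool.Agent.Y120.GH.itm T A s := by
  induction s with
  | zero => rfl
  | succ s ih =>
    funext i j
    rw [iter, Pool.Agent.Y120.GH.itm, ih]

theorem qu_eq {r : ℕ} {T : Polynomial ℤ} {A : Fin r → Fin r → Polynomial ℤ} (h : QuasiUnipotent T A) :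
    Pool.Agent.Y120.GH.QU0 T A := by
  obtain ⟨e, M, K, Φ, he, hdet, hc, heq⟩ := h
  have he0 : e ≠ 0 := by omega
  refine ⟨e, he0, M, K, Φ, hc, fun i j n => ?_, hdet⟩
  have h1 := heq i j n
  simp only [atPow] at h1
  rw [Pool.Agent.Y120.GH.expand_poly he0]
  simp only [Pool.Agent.Y120.GH.expand_poly he0]
  exact h1

theorem GFamily.fam {r : ℕ} {T : Polynomial ℤ} {A : Fin r → Fin r → Polynomial ℤ} {h : Fin r → PowerSeries ℚ}
    (hG : GFamily T A h) : Pool.Agent.Q246.AF.FAMN h := by
  refine Pool.Agent.Q246.AF.t_famN (T := T) (A := A) ⟨hG.T_ne, hG.ode, hG.size, ?_, qu_eq hG.regular⟩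
  refine Pool.Agent.Y120.GH.gsys_of (A := A) hG.ode hG.size hG.den ?_
  obtain ⟨C, hC⟩ := hG.galochkin
  refine ⟨C, fun m => ?_⟩
  obtain ⟨d, h1, h2, h3⟩ := hC m
  refine ⟨d, h1, h2, fun s hs i' j' => ?_⟩
  rw [← iter_eq]
  exact h3 s hs i' j'

open Pool.Agent.Y916.Al in
/-- the values satisfy the specialised relations -/
theorem ev_rel {r : ℕ} {h : Fin r → PowerSeries ℚ} {z : ℂ} (hz : ∀ i, Cvc z (h i))
    (R : MvPolynomial (Fin r) (Polynomial ℚ)) : Cvc z (MvPolynomial.aeval h R) ∧
      evc z (MvPolynomial.aeval h R) =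
        MvPolynomial.eval₂ (Polynomial.aeval z : Polynomial ℚ →ₐ[ℚ] ℂ).toRingHom (fun i => evc z (h i)) R := by
  induction R using MvPolynomial.induction_on with
  | C p =>
    rw [MvPolynomial.aeval_C, MvPolynomial.eval₂_C]
    exact ⟨Cvc.coe p, ev_coe p⟩
  | add p q hp hq =>
    rw [map_add, MvPolynomial.eval₂_add, ← hp.2, ← hq.2]
    exact ⟨hp.1.add hq.1, hp.1.ev_add hq.1⟩
  | mul_X p i hp =>
    rw [map_mul, MvPolynomial.aeval_X, MvPolynomial.eval₂_mul, MvPolynomial.eval₂_X, ← hp.2]
    exact ⟨hp.1.mul (hz i), hp.1.ev_mul (hz i)⟩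

/-- equal numbers have close approximations -/
theorem close {A : ℝ} (hA : 0 ≤ A) {u v p q : ℂ} (hu : A * ‖u - p‖ ≤ 1) (hv : A * ‖v - q‖ ≤ 1) (h : p = q) :
    A * ‖u - v‖ ≤ 2 := by
  subst h
  have h1 : ‖u - v‖ ≤ ‖u - p‖ + ‖v - p‖ := by
    calc ‖u - v‖ = ‖(u - p) - (v - p)‖ := by congr 1; ring
      _ ≤ _ := norm_sub_le _ _
  calc A * ‖u - v‖ ≤ A * (‖u - p‖ + ‖v - p‖) := mul_le_mul_of_nonneg_left h1 hA
    _ = A * ‖u - p‖ + A * ‖v - p‖ := by ring
    _ ≤ 2 := by linarith

theorem Expr.sub {σ : Type} {d : ℕ} {H : ℝ} (hH : 2 ≤ H) {P Q : MvPolynomial σ ℤ} (hP : Expr d H P) (hQ : Expr d H Q) :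
    (P - Q).totalDegree ≤ d ∧ ∀ e, |(((P - Q).coeff e : ℤ) : ℝ)| ≤ H ^ 2 := by
  refine ⟨(MvPolynomial.totalDegree_sub _ _).trans (max_le hP.1 hQ.1), fun e => ?_⟩
  rw [MvPolynomial.coeff_sub]
  push_cast
  refine (abs_sub _ _).trans ?_
  have := hP.2 e
  have := hQ.2 e
  nlinarith

/-- Let `h_j`, `j < k`, be connected families of G-functions. For all `g`, `d` and `m ≥ 1` there are `B`, `C` and `c > 0` such
that for all `T ≥ 1`: (1) for every sufficiently large `H₁` and all `ζ ∈ ℂ ^ g`, for all but at most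
`C T ^ (-c) |Ints m T| ^ k` of the tuples `α ∈ (Ints m T)^k` the tests are correct for all `H` with
`H₁ ≤ H ≤ H₁ ^ exp (T ^ c)`; (2) for all `ζ` all but at most `C T ^ (-c) |Ints m T| ^ k` of the tuples have the property that
there are arbitrarily large `N` such that, for all but at most `T ^ (-c) N` of the `s < N`, the tests are correct for all `H`
with `2 ^ (2 ^ s) ≤ H ≤ 2 ^ (2 ^ (s + 1))`. -/
theorem result (k : ℕ) (r : Fin k → ℕ) (T₀ : Fin k → Polynomial ℤ) (A : ∀ j, Fin (r j) → Fin (r j) → Polynomial ℤ)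
    (h : ∀ j, Fin (r j) → PowerSeries ℚ) (hG : ∀ j, GFamily (T₀ j) (A j) (h j)) (hc : ∀ j, Connected (h j))
    (g d m : ℕ) (hm : 1 ≤ m) :
    ∃ (B : ℕ) (C c : ℝ), 0 < c ∧ ∀ T : ℕ, 1 ≤ T →
    (∃ H₀ : ℝ, ∀ H₁ : ℝ, H₀ ≤ H₁ → ∀ ζ : Fin g → ℂ,
      (({α : Fin k → ℂ | (∀ j, α j ∈ Ints m T) ∧ ¬ ∀ H : ℝ, H₁ ≤ H → H ≤ H₁ ^ Real.exp ((T : ℝ) ^ c) →
        Correct h d B ζ α H}.ncard : ℕ) : ℝ) ≤ C * (T : ℝ) ^ (-c) * (((Ints m T).ncard : ℕ) : ℝ) ^ k) ∧
    ∀ ζ : Fin g → ℂ, (({α : Fin k → ℂ | (∀ j, α j ∈ Ints m T) ∧ ¬ ∀ N₀ : ℕ, ∃ N, N₀ ≤ N ∧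
      (({s : ℕ | s < N ∧ ¬ ∀ H : ℝ, 2 ^ (2 ^ s) ≤ H → H ≤ 2 ^ (2 ^ (s + 1)) → Correct h d B ζ α H}.ncard : ℕ) : ℝ) ≤
        (T : ℝ) ^ (-c) * N}.ncard : ℕ) : ℝ) ≤ C * (T : ℝ) ^ (-c) * (((Ints m T).ncard : ℕ) : ℝ) ^ k := by
  have hsize := fun j => (hG j).size
  choose Cs hCs using hsize
  obtain ⟨R₁, hR₁⟩ := exists_nat_ge (∑ j, |Cs j|)
  have hCR : ∀ j, |Cs j| ≤ R₁ := fun j =>
    (Finset.single_le_sum (f := fun j => |Cs j|) (fun _ _ => abs_nonneg _) (Finset.mem_univ j)).trans hR₁
  -- the point is in the product of the fibres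
  have hmem : ∀ α ℓ : Fin k → ℂ, (∀ j, (R₁ : ℝ) < ‖α j‖) → point h α ℓ ∈ Fibres h α := by
    intro α ℓ hα j R hR
    have hα0 : 0 < ‖α j‖ := lt_of_le_of_lt (Nat.cast_nonneg _) (hα j)
    have hcv : ∀ i, Pool.Agent.Y916.Al.Cvc (1 / α j) (h j i) := by
      intro i
      refine Pool.Agent.Y916.Al.Cvc.of_bound (A := |Cs j|) (B := |Cs j|) (abs_nonneg _) ?_ fun m => ?_
      · rw [norm_div, norm_one, mul_one_div, div_lt_one hα0]
        exact (hCR j).trans_lt (hα j)
      · rw [Complex.norm_ratCast]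
        refine (hCs j i m).trans ((le_abs_self _).trans (le_of_eq ?_))
        rw [abs_pow, pow_succ']
    have h1 := (ev_rel hcv R).2
    rw [hR, Pool.Agent.Y916.Al.ev_zero] at h1
    exact h1.symm
  have hR0 : (0 : ℝ) ≤ R₁ := Nat.cast_nonneg _
  refine Pool.Agent.Q189.MF.torD (fun j => (hG j).fam) (fun j => (hG j).size) hc g m d 2 R₁ hm (by norm_num)
    (fun ζ : Fin g → ℂ => ζ) (fun B ζ α H => Correct h d B ζ α H)
    (fun B₀ => ⟨2 * B₀ + 1, fun T hT => ⟨5, fun ζ α H hH _ hα hg => ?_⟩⟩) ?_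
  · have hH0 : 0 ≤ H := by linarith
    have hH2 : 2 ≤ H := by linarith
    have hH4 : H ≤ H ^ 2 := le_self_pow₀ (by linarith) (by norm_num)
    intro ℓ hℓ hℓH
    obtain ⟨g1, g2⟩ := hg ℓ hℓ fun j => (hℓH j).trans hH4
    have hpt : point h α ℓ ∈ Fibres h α := hmem α ℓ hα
    refine ⟨fun P Q hP hQ => ?_, fun P Q hP hQ => ⟨fun heq y hy => ?_, fun hall => hall _ hpt⟩⟩
    · have hPQ := hP.sub hH2 hQ
      have key : (∃ y ∈ Fibres h α, MvPolynomial.aeval (Sum.elim y α) P ≠ MvPolynomial.aeval (Sum.elim y α) Q) →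
          1 ≤ H ^ (2 * B₀) * ‖MvPolynomial.aeval (Sum.elim (point h α ℓ) α) P -
            MvPolynomial.aeval (Sum.elim (point h α ℓ) α) Q‖ := by
        rintro ⟨y, hy, hne⟩
        have h1 := g1 (P - Q) hPQ.1 hPQ.2 ⟨y, hy, by rw [map_sub]; exact sub_ne_zero.2 hne⟩
        rw [map_sub, ← pow_mul] at h1
        exact h1
      have key2 : MvPolynomial.aeval (Sum.elim (point h α ℓ) α) P = MvPolynomial.aeval (Sum.elim (point h α ℓ) α) Q →
          ∀ y ∈ Fibres h α, MvPolynomial.aeval (Sum.elim y α) P = MvPolynomial.aeval (Sum.elim y α) Q := by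
        intro heq y hy
        by_contra hne
        have h2 := key ⟨y, hy, hne⟩
        rw [heq, sub_self, norm_zero, mul_zero] at h2
        linarith
      refine ⟨⟨key2, fun hall => hall _ hpt⟩, fun u v hu hv => ⟨close (by positivity) hu hv, fun h' => ?_⟩⟩
      by_contra hne
      have h2 := key (by
        by_contra hcon
        push Not at hcon
        exact hne (hcon _ hpt))
      have h3 : ‖MvPolynomial.aeval (Sum.elim (point h α ℓ) α) P - MvPolynomial.aeval (Sum.elim (point h α ℓ) α) Q‖ ≤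
          ‖u - MvPolynomial.aeval (Sum.elim (point h α ℓ) α) P‖ + ‖u - v‖ +
            ‖v - MvPolynomial.aeval (Sum.elim (point h α ℓ) α) Q‖ := by
        calc ‖MvPolynomial.aeval (Sum.elim (point h α ℓ) α) P - MvPolynomial.aeval (Sum.elim (point h α ℓ) α) Q‖
            = ‖-(u - MvPolynomial.aeval (Sum.elim (point h α ℓ) α) P) + (u - v) +
              (v - MvPolynomial.aeval (Sum.elim (point h α ℓ) α) Q)‖ := by congr 1; ring
          _ ≤ ‖-(u - MvPolynomial.aeval (Sum.elim (point h α ℓ) α) P)‖ + ‖u - v‖ +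
              ‖v - MvPolynomial.aeval (Sum.elim (point h α ℓ) α) Q‖ := norm_add₃_le
          _ = _ := by rw [norm_neg]
      set a := ‖u - MvPolynomial.aeval (Sum.elim (point h α ℓ) α) P‖
      set b := ‖v - MvPolynomial.aeval (Sum.elim (point h α ℓ) α) Q‖
      set w := ‖MvPolynomial.aeval (Sum.elim (point h α ℓ) α) P - MvPolynomial.aeval (Sum.elim (point h α ℓ) α) Q‖
      have h4 : H * 1 ≤ 4 := by
        calc H * 1 ≤ H * (H ^ (2 * B₀) * w) := mul_le_mul_of_nonneg_left h2 hH0
          _ = H ^ (2 * B₀ + 1) * w := by rw [pow_succ]; ring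
          _ ≤ H ^ (2 * B₀ + 1) * (a + ‖u - v‖ + b) := mul_le_mul_of_nonneg_left h3 (by positivity)
          _ ≤ 4 := by rw [mul_add, mul_add]; linarith
      linarith
    · have hPQ := hP.sub hH2 hQ
      have h1 := g2 (P - Q) hPQ.1 hPQ.2 y hy
      have h2 : MvPolynomial.aeval (Sum.elim (Pool.Agent.Q189.MF.ptD h α ℓ) (Sum.elim ζ α)) (P - Q) = 0 := by
        rw [map_sub, sub_eq_zero]
        exact heq
      rw [h2, norm_zero, mul_zero] at h1
      have h3 := norm_le_zero_iff.1 h1
      rwa [map_sub, sub_eq_zero] at h3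
  · intro B ζ α H H' h1 h2 h3 hg ℓ hℓ hℓH
    have hH0 : 0 ≤ H := by linarith
    have h4 : H' ^ B ≤ H ^ (2 * B) := by
      rw [pow_mul]
      exact pow_le_pow_left₀ (by linarith) h3 _
    obtain ⟨g1, g2⟩ := hg ℓ hℓ (fun j => (hℓH j).trans h2)
    refine ⟨fun P Q hP hQ => ?_, fun P Q hP hQ => g2 P Q ⟨hP.1, fun e => (hP.2 e).trans h2⟩
      ⟨hQ.1, fun e => (hQ.2 e).trans h2⟩⟩
    obtain ⟨g3, g4⟩ := g1 P Q ⟨hP.1, fun e => (hP.2 e).trans h2⟩ ⟨hQ.1, fun e => (hQ.2 e).trans h2⟩
    refine ⟨g3, fun u v hu hv => ⟨close (by positivity) hu hv, fun h' => ?_⟩⟩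
    exact (g4 u v ((mul_le_mul_of_nonneg_right h4 (norm_nonneg _)).trans hu)
      ((mul_le_mul_of_nonneg_right h4 (norm_nonneg _)).trans hv)).2
      ((mul_le_mul_of_nonneg_right h4 (norm_nonneg _)).trans h')

end Pool.Agent.Results.MP_bbe012_lc.FamiliesOfVarieties
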