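import Pool.Agent.Results.MP_1eadae_ag.HyperellipticPairs

/-!
# A formal test for the equality of periods of 100% of the pairs (affine hyperelliptic curve, marked fibres)

Let `w_0 = 1, w_1, …, w_q` be complex numbers and `Λ = ℤ w_0 + … + ℤ w_q`, for example the ring of integers of a number field.
Integers `b` give hyperelliptic curves `y² = F_j(x)`, `j < N`, `F_j ∈ Λ[x]` of degree at most `n_j + 1`, and `m_j` marked points
`z_s = u_s / v_s` of the line, `u_s, v_s ∈ Λ`, for each curve. The definitions are those of the starting result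
`MP_1eadae_ag.HyperellipticPairs`: `allPeriods` are the periods of the forms of the first and second kind and of the third
kind over `2 g_j` loops and the integrals of the forms `x ^ i dx / y` up to the marked points (the (quasi-)logarithms of the
marked points), and `Torsor` is the variety given by the bilinear relations of Riemann and Legendre between the periods of the
first and second kind, which contains the point `(allPeriods, 2πi)`.

We consider the periods which are presented by polynomials `P` in all these numbers and `2πi`, with coefficients in a number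
field, or by combinations `∑ ξ_b P_b` with arbitrary complex constants `ξ_b`. For 100% of the parameters `b`, ordered by
`|b| ≤ T`, the equality of the periods given by two presentations of degree at most `ω(T)` and height at most `T ^ ω(T)`,
over any number field of degree at most `ω(T)`, is decided by a formal test, where `ω(T) → ∞`:

* the values of `P` and `Q` are equal if and only if `P` and `Q` are equal on the torsor, that is if and only if `P - Q` is in the
  radical of the ideal generated by the explicit bilinear relations (which can be tested with a Gröbner basis);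
* the values of `∑ ξ_b P_b` and `∑ ξ_b Q_b`, without `2πi`, are equal if and only if these polynomials are equal on the fibre of
  the torsor over `2πi`; so the equality of periods is reduced to equalities between the constants.

The theorem is a form of the starting result for the problem of the equality of periods; its proof also uses that the point is
on the torsor.
-/

set_option autoImplicit false

open Polynomial NumberField Filter

namespace Pool.Agent.Results.MP_bbe012_lc.HyperellipticPairsTest

open Pool.Agent.Results.MP_1eadae_ag.HyperellipticPairs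

variable {N : ℕ}

/-- the value of a polynomial over the integers of a number field -/
noncomputable def val {σ K : Type} [Field K] [NumberField K] (φ : K →+* ℂ) (v : σ → ℂ) (P : MvPolynomial σ (𝓞 K)) : ℂ :=
  (P.map (φ.comp (algebraMap (𝓞 K) K))).eval v

/-- presentations over a number field: the degree is at most `k` and the conjugates of the coefficients are at most `H` -/
def Expr {σ K : Type} [Field K] [NumberField K] (k : ℕ) (H : ℝ) (P : MvPolynomial σ (𝓞 K)) : Prop :=
  P.totalDegree ≤ k ∧ ∀ s (ψ : K →+* ℂ), ‖ψ (algebraMap (𝓞 K) K (P.coeff s))‖ ≤ H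

/-- presentations over the rational numbers: the degree is at most `k` and the coefficients are at most `H` -/
def ExprZ {σ : Type} (k : ℕ) (H : ℝ) (P : MvPolynomial σ ℤ) : Prop :=
  P.totalDegree ≤ k ∧ ∀ s, |((P.coeff s : ℤ) : ℝ)| ≤ H

/-- The formal tests at the degree `k` and the height `H` are correct for the point `(Y, 2πi)`. -/
def Correct (n m : Fin N → ℕ) (Y : Ind n m → ℂ) (k : ℕ) (ξ : Fin k → ℂ) (H : ℝ) : Prop :=
  (∀ (K : Type) [Field K] [NumberField K] (φ : K →+* ℂ) (P Q : MvPolynomial (Option (Ind n m)) (𝓞 K)),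
    Module.finrank ℚ K ≤ k → Expr k H P → Expr k H Q →
    (val φ (point Y (2 * Real.pi * Complex.I)) P = val φ (point Y (2 * Real.pi * Complex.I)) Q ↔
      ∀ x ∈ Torsor n m, val φ (point x.1 x.2) P = val φ (point x.1 x.2) Q)) ∧
  ∀ P Q : Fin k → MvPolynomial (Ind n m) ℤ, (∀ b, ExprZ k H (P b)) → (∀ b, ExprZ k H (Q b)) →
    (∑ b, ξ b * MvPolynomial.aeval Y (P b) = ∑ b, ξ b * MvPolynomial.aeval Y (Q b) ↔
      ∀ Z, (Z, (2 * Real.pi * Complex.I : ℂ)) ∈ Torsor n m →
        ∑ b, ξ b * MvPolynomial.aeval Z (P b) = ∑ b, ξ b * MvPolynomial.aeval Z (Q b))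

theorem correct_of {n m : Fin N → ℕ} {Y : Ind n m → ℂ} {k k' : ℕ} (hk : k ≤ k') {ξ : Fin k → ℂ} {H H' : ℝ} (hH0 : 0 ≤ H')
    (hH : 2 * H ≤ H') (hY : (Y, (2 * Real.pi * Complex.I : ℂ)) ∈ Torsor n m)
    (h1 : RelativeGPC n m Y k' (fun b => if h : (b : ℕ) < k then ξ ⟨b, h⟩ else 0) H') (h2 : BoundedGPC n m Y k' H') :
    Correct n m Y k ξ H := by
  refine ⟨fun K _ _ φ P Q hK hP hQ => ⟨fun heq x hx => ?_,
      fun hall => hall (Y, (2 * Real.pi * Complex.I : ℂ)) hY⟩,
    fun P Q hP hQ => ⟨fun heq Z hZ => ?_, fun hall => hall Y hY⟩⟩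
  · have h3 := h2 K φ (P - Q) (hK.trans hk)
      ((MvPolynomial.totalDegree_sub _ _).trans (max_le (hP.1.trans hk) (hQ.1.trans hk))) (fun s ψ => by
        rw [MvPolynomial.coeff_sub, map_sub, map_sub]
        refine (norm_sub_le _ _).trans ?_
        have := hP.2 s ψ
        have := hQ.2 s ψ
        linarith) (by
        rw [map_sub, map_sub, sub_eq_zero]
        exact heq) x hx
    rw [map_sub, map_sub, sub_eq_zero] at h3
    exact h3
  · set R : Fin k' → MvPolynomial (Ind n m) ℤ := fun b => if h : (b : ℕ) < k then P ⟨b, h⟩ - Q ⟨b, h⟩ else 0 with hR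
    have hsum : ∀ v : Ind n m → ℂ, ∑ b : Fin k', (if h : (b : ℕ) < k then ξ ⟨b, h⟩ else 0) * MvPolynomial.aeval v (R b) =
        ∑ b, ξ b * MvPolynomial.aeval v (P b) - ∑ b, ξ b * MvPolynomial.aeval v (Q b) := by
      intro v
      rw [← Finset.sum_sub_distrib]
      have h4 : ∀ b : Fin k', (if h : (b : ℕ) < k then ξ ⟨b, h⟩ else 0) * MvPolynomial.aeval v (R b) =
          if h : (b : ℕ) < k then ξ ⟨b, h⟩ * MvPolynomial.aeval v (P ⟨b, h⟩) - ξ ⟨b, h⟩ * MvPolynomial.aeval v (Q ⟨b, h⟩)
          else 0 := by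
        intro b
        simp only [hR]
        split_ifs with h
        · rw [map_sub, mul_sub]
        · rw [zero_mul]
      simp only [h4]
      rw [Fin.sum_univ_eq_sum_range (fun b => if h : b < k then ξ ⟨b, h⟩ * MvPolynomial.aeval v (P ⟨b, h⟩) -
        ξ ⟨b, h⟩ * MvPolynomial.aeval v (Q ⟨b, h⟩) else 0) k']
      have h5 : ∑ b : Fin k, (ξ b * MvPolynomial.aeval v (P b) - ξ b * MvPolynomial.aeval v (Q b)) =
          ∑ b ∈ Finset.range k, (if h : b < k then ξ ⟨b, h⟩ * MvPolynomial.aeval v (P ⟨b, h⟩) -
            ξ ⟨b, h⟩ * MvPolynomial.aeval v (Q ⟨b, h⟩) else 0) := by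
        rw [← Fin.sum_univ_eq_sum_range (fun b => if h : b < k then ξ ⟨b, h⟩ * MvPolynomial.aeval v (P ⟨b, h⟩) -
          ξ ⟨b, h⟩ * MvPolynomial.aeval v (Q ⟨b, h⟩) else 0) k]
        refine Finset.sum_congr rfl fun b _ => ?_
        rw [dif_pos b.2]
      rw [h5]
      symm
      refine Finset.sum_subset (Finset.range_mono hk) fun b _ hb => ?_
      rw [Finset.mem_range] at hb
      rw [dif_neg hb]
    have h3 := h1 R (fun b => by
        simp only [hR]
        split_ifs with h
        · exact (MvPolynomial.totalDegree_sub _ _).trans (max_le ((hP _).1.trans hk) ((hQ _).1.trans hk))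
        · simp) (fun b s => by
        simp only [hR]
        split_ifs with h
        · rw [MvPolynomial.coeff_sub]
          push_cast
          refine (abs_sub _ _).trans ?_
          have := (hP ⟨b, h⟩).2 s
          have := (hQ ⟨b, h⟩).2 s
          linarith
        · simpa using hH0) (by rw [hsum, sub_eq_zero]; exact heq) Z hZ
    rw [hsum, sub_eq_zero] at h3
    exact h3

/-- Let `N ≥ 1`, let `n_j`, `m_j` be natural numbers and let `w_0 = 1, w_1, …, w_q` be complex numbers. There is
`ω : ℕ → ℕ`, `ω(T) → ∞`, such that for all `ε > 0` and `T ≥ T₀(ε)` and all complex numbers `ξ_b`, `b < ω(T)`, all but a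
proportion `ε` of the parameters `b` with `|b| ≤ T` satisfy: the curves and marked points are in general position, the
periods and `2πi` form a point of the torsor, and the formal tests at the degree `ω(T)` and the height `T ^ ω(T)` are
correct. -/
theorem result (hN : 1 ≤ N) (n m : Fin N → ℕ) (q : ℕ) (w : Fin (q + 1) → ℂ) (hw : w 0 = 1) :
    ∃ ω : ℕ → ℕ, Tendsto ω atTop atTop ∧ ∀ ε : ℝ, 0 < ε → ∃ T₀ : ℕ, ∀ T : ℕ, T₀ ≤ T → ∀ ξ : Fin (ω T) → ℂ,
      ∃ E ⊆ Box n m q T, (E.card : ℝ) ≤ ε * (Box n m q T).card ∧ ∀ b ∈ Box n m q T, b ∉ E →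
        (∀ s, den n m w b s ≠ 0) ∧
        ∃ (e : ∀ j, Fin (n j + 1) → ℂ) (k : ∀ s : Marks m, Fin (n s.1 + 2)),
          (∀ j, Branch (pol n m w b j) (e j)) ∧ (∀ s, Position (e s.1) (k s) (marked n m w b s)) ∧
          (allPeriods (pol n m w b) e k (marked n m w b), (2 * Real.pi * Complex.I : ℂ)) ∈ Torsor n m ∧
          Correct n m (allPeriods (pol n m w b) e k (marked n m w b)) (ω T) ξ ((T : ℝ) ^ ω T) := by
  obtain ⟨ω, hω, H⟩ := Pool.Agent.Results.MP_1eadae_ag.HyperellipticPairs.result hN n m q w hw
  refine ⟨fun T => ω T - 1, ?_, fun ε hε => ?_⟩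
  · exact (tendsto_sub_atTop_nat 1).comp hω
  obtain ⟨T₀, hT₀⟩ := H ε hε
  obtain ⟨T₁, hT₁⟩ := (tendsto_atTop.1 hω 1).exists_forall_of_atTop
  refine ⟨max T₀ (max T₁ 2), fun T hT ξ => ?_⟩
  have hT0 : T₀ ≤ T := (le_max_left _ _).trans hT
  have hT1 : T₁ ≤ T := (le_max_left _ _).trans ((le_max_right _ _).trans hT)
  have hT2 : 2 ≤ T := (le_max_right _ _).trans ((le_max_right _ _).trans hT)
  have hω1 : 1 ≤ ω T := hT₁ T hT1
  obtain ⟨E, hE1, hE2, hE3⟩ := hT₀ T hT0 (fun b => if h : (b : ℕ) < ω T - 1 then ξ ⟨b, h⟩ else 0)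
  refine ⟨E, hE1, hE2, fun b hb hbE => ?_⟩
  obtain ⟨hd, e, k, he, hk, h1, h2, h3⟩ := hE3 b hb hbE
  refine ⟨hd, e, k, he, hk, h1, correct_of (Nat.sub_le _ _) (by positivity) ?_ h1 h2 h3⟩
  have hT2r : (2 : ℝ) ≤ T := by exact_mod_cast hT2
  calc (2 : ℝ) * (T : ℝ) ^ (ω T - 1) ≤ T * (T : ℝ) ^ (ω T - 1) := mul_le_mul_of_nonneg_right hT2r (by positivity)
    _ = (T : ℝ) ^ (ω T - 1 + 1) := by rw [pow_succ]; ring
    _ = (T : ℝ) ^ ω T := by rw [Nat.sub_add_cancel hω1]

end Pool.Agent.Results.MP_bbe012_lc.HyperellipticPairsTest
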